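import Mathlib
import Pool.Agent.H13.IntVal.Defs
import Pool.Agent.H61.IntVal.Final

set_option autoImplicit false

/-!
# The implication holds over domains with finite residue rings
-/

namespace Pool.Agent.Results.MP_f9f43c_al.FiniteResidue

open Pool.Agent.H13.IntVal
open scoped TensorProduct Polynomial

/-- If `D` is an integrally closed domain all of whose proper residue rings `D / (d)` are finite,
and `A` is a torsion-free module-finite `D`-algebra for which `Int_K(A)` is integrally closed, then
the elements of `B = K ⊗ A` that are integral over `D` are exactly the elements of `A`. -/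
theorem result : ∀ (D A : Type*) [CommRing D] [IsDomain D] [IsIntegrallyClosed D] [Ring A]
    [Algebra D A] [Module.IsTorsionFree D A] [Module.Finite D A],
    (∀ d : D, d ≠ 0 → Finite (D ⧸ Ideal.span {d})) →
    IsIntegrallyClosed (IntK D A) →
    ∀ b : BB D A, IsIntegral D b ↔ b ∈ imageA D A := by
  intro D A _ _ _ _ _ _ _ hD hA b
  exact Pool.Agent.H61.IntVal.isIntegral_iff_mem_imageA hD b

end Pool.Agent.Results.MP_f9f43c_al.FiniteResidue
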