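import Mathlib
import Pool.Agent.H13.IntVal.Defs
import Pool.Agent.H13.IntVal.Lag

set_option autoImplicit false

/-!
# Failure of the implication when there is an infinite residue field
-/

namespace Pool.Agent.Results.MP_f9f43c_al.InfiniteResidue

open Pool.Agent.H13.IntVal
open scoped TensorProduct Polynomial
open Polynomial

universe u

/-- The order of all pairs `(a, b)` in `D × D` with `a - b ∈ I`. -/
def ord (D : Type u) [CommRing D] (I : Ideal D) : Subalgebra D (D × D) where
  carrier := {p | p.1 - p.2 ∈ I}
  mul_mem' := by
    intro p q hp hq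
    have h : p.1 * q.1 - p.2 * q.2 = q.1 * (p.1 - p.2) + p.2 * (q.1 - q.2) := by ring
    change p.1 * q.1 - p.2 * q.2 ∈ I
    rw [h]
    exact I.add_mem (I.mul_mem_left _ hp) (I.mul_mem_left _ hq)
  add_mem' := by
    intro p q hp hq
    have h : (p.1 + q.1) - (p.2 + q.2) = (p.1 - p.2) + (q.1 - q.2) := by ring
    change (p.1 + q.1) - (p.2 + q.2) ∈ I
    rw [h]
    exact I.add_mem hp hq
  algebraMap_mem' := by
    intro r
    change r - r ∈ I
    rw [sub_self]
    exact I.zero_mem

section

variable (D : Type u) [CommRing D] [IsDomain D] (I : Ideal D)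

/-- The map `(c, i) ↦ (c + i, c)` onto the order. -/
def par : (D × I) →ₗ[D] ord D I where
  toFun p := ⟨(p.1 + p.2, p.1), by
    change p.1 + p.2 - p.1 ∈ I
    rw [add_sub_cancel_left]
    exact p.2.2⟩
  map_add' p q := by
    apply Subtype.ext
    apply Prod.ext
    · change (p.1 + q.1) + ((p.2 : D) + q.2) = (p.1 + p.2) + (q.1 + q.2)
      ring
    · rfl
  map_smul' c p := by
    apply Subtype.ext
    apply Prod.ext
    · change c * p.1 + c * (p.2 : D) = c * (p.1 + p.2)
      ring
    · rfl

omit [IsDomain D] in
theorem finite_ord (hI : I.FG) : Module.Finite D (ord D I) := by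
  have h1 : Module.Finite D I := Module.Finite.of_fg hI
  apply Module.Finite.of_surjective (par D I)
  rintro ⟨⟨a, b⟩, hab⟩
  refine ⟨(b, ⟨a - b, hab⟩), ?_⟩
  apply Subtype.ext
  apply Prod.ext
  · change b + (a - b) = a
    ring
  · rfl

omit [IsDomain D] in
theorem torsionFree_ord : Module.IsTorsionFree D (ord D I) :=
  Function.Injective.moduleIsTorsionFree (Subtype.val : ord D I → D × D) Subtype.val_injective
    (fun _ _ => rfl)

/-- The two projections `B → K`. -/
noncomputable def pr1 : BB D (ord D I) →ₐ[FractionRing D] FractionRing D :=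
  Algebra.TensorProduct.lift (AlgHom.id _ _)
    ((Algebra.ofId D (FractionRing D)).comp ((AlgHom.fst D D D).comp (ord D I).val))
    (fun _ _ => Commute.all _ _)

/-- The second projection. -/
noncomputable def pr2 : BB D (ord D I) →ₐ[FractionRing D] FractionRing D :=
  Algebra.TensorProduct.lift (AlgHom.id _ _)
    ((Algebra.ofId D (FractionRing D)).comp ((AlgHom.snd D D D).comp (ord D I).val))
    (fun _ _ => Commute.all _ _)

omit [IsDomain D] in
theorem pr1_tmul (k : FractionRing D) (p : ord D I) :
    pr1 D I (k ⊗ₜ[D] p) = k * algebraMap D (FractionRing D) (p : D × D).1 := by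
  exact Algebra.TensorProduct.lift_tmul _ _ _ _ _

omit [IsDomain D] in
theorem pr2_tmul (k : FractionRing D) (p : ord D I) :
    pr2 D I (k ⊗ₜ[D] p) = k * algebraMap D (FractionRing D) (p : D × D).2 := by
  exact Algebra.TensorProduct.lift_tmul _ _ _ _ _

theorem pr_injective (b : BB D (ord D I)) (h1 : pr1 D I b = 0) (h2 : pr2 D I b = 0) : b = 0 := by
  obtain ⟨d, hd, a, ha⟩ := exists_smul_mem b
  have hφi : Function.Injective (algebraMap D (FractionRing D)) := IsFractionRing.injective D _
  have e1 : algebraMap D (FractionRing D) (a : D × D).1 = 0 := by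
    have := congrArg (pr1 D I) ha
    rw [pr1_tmul, one_mul] at this
    rw [← this, ← algebraMap_smul (FractionRing D) d b, map_smul, h1, smul_zero]
  have e2 : algebraMap D (FractionRing D) (a : D × D).2 = 0 := by
    have := congrArg (pr2 D I) ha
    rw [pr2_tmul, one_mul] at this
    rw [← this, ← algebraMap_smul (FractionRing D) d b, map_smul, h2, smul_zero]
  have ha0 : a = 0 := by
    apply Subtype.ext
    apply Prod.ext
    · apply hφi; rw [e1, ZeroMemClass.coe_zero, Prod.fst_zero, map_zero]
    · apply hφi; rw [e2, ZeroMemClass.coe_zero, Prod.snd_zero, map_zero]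
  rw [ha0, TensorProduct.tmul_zero] at ha
  rw [← algebraMap_smul (FractionRing D) d b] at ha
  have hφd : algebraMap D (FractionRing D) d ≠ 0 := by
    intro h; apply hd; apply hφi; rw [h, map_zero]
  rw [← inv_smul_smul₀ hφd b, ha, smul_zero]

end

section main

variable (D : Type u) [CommRing D] [IsDomain D] (I : Ideal D)

omit [IsDomain D] in
/-- Evaluation at `a ∈ D` takes `Int_K(A)` to `D`. -/
theorem eval_mem (f : (FractionRing D)[X]) (hf : f ∈ IntK D (ord D I)) (a : D) :
    f.eval (algebraMap D (FractionRing D) a) ∈ (algebraMap D (FractionRing D)).range := by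
  obtain ⟨q, hq⟩ := (mem_imageA _).mp (hf (algebraMap D (ord D I) a))
  have h := congrArg (pr1 D I) hq
  rw [pr1_tmul, one_mul, ← Polynomial.aeval_algHom_apply, pr1_tmul, one_mul] at h
  refine ⟨(q : D × D).1, ?_⟩
  rw [h, Polynomial.aeval_def, Polynomial.eval₂_eq_eval_map, Algebra.algebraMap_self,
    Polynomial.map_id]
  rfl

/-- The key step: polynomials mapping `D` to `D` map the order to itself. -/
theorem mem_IntK_of_eval
    (hres : ∀ M : Ideal D, M.IsMaximal → I ≤ M → Infinite (D ⧸ M))
    (f : (FractionRing D)[X]) (F : D → D)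
    (hF : ∀ a, f.eval (algebraMap D (FractionRing D) a) = algebraMap D (FractionRing D) (F a)) :
    f ∈ IntK D (ord D I) := by
  have hφi : Function.Injective (algebraMap D (FractionRing D)) := IsFractionRing.injective D _
  -- congruences
  have hcong : ∀ a b : D, a - b ∈ I → F a - F b ∈ I := by
    intro a b hab
    let J : Ideal D :=
      { carrier := {t | t * (F a - F b) ∈ I}
        add_mem' := by
          intro x y hx hy
          change (x + y) * (F a - F b) ∈ I
          rw [add_mul]
          exact I.add_mem hx hy
        zero_mem' := by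
          change 0 * (F a - F b) ∈ I
          rw [zero_mul]
          exact I.zero_mem
        smul_mem' := by
          intro c x hx
          change (c * x) * (F a - F b) ∈ I
          rw [mul_assoc]
          exact I.mul_mem_left _ hx }
    have hJ : J = ⊤ := by
      by_contra hne
      obtain ⟨M, hM, hJM⟩ := Ideal.exists_le_maximal J hne
      have hIM : I ≤ M := by
        refine le_trans ?_ hJM
        intro x hx
        change x * (F a - F b) ∈ I
        exact I.mul_mem_right _ hx
      have := hM.isPrime
      obtain ⟨s, hs, g, hg⟩ := exists_clear f F hF M (hres M hM hIM)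
      apply hs
      apply hJM
      change s * (F a - F b) ∈ I
      have h1 : s * (F a - F b) = g.eval a - g.eval b := by
        apply hφi
        have ev : ∀ c : D, algebraMap D (FractionRing D) (g.eval c)
            = algebraMap D (FractionRing D) s * algebraMap D (FractionRing D) (F c) := by
          intro c
          rw [← Polynomial.eval_map_apply, hg, Polynomial.eval_mul, Polynomial.eval_C, hF c]
        rw [map_sub, ev a, ev b, map_mul, map_sub]
        ring
      rw [h1]
      exact I.mem_of_dvd (Polynomial.sub_dvd_eval_sub a b g) hab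
    have h1 : (1 : D) ∈ J := by rw [hJ]; trivial
    have h2 : (1 : D) * (F a - F b) ∈ I := h1
    rwa [one_mul] at h2
  rw [mem_IntK]
  intro p
  have hp : F (p : D × D).1 - F (p : D × D).2 ∈ I := hcong _ _ p.2
  refine (mem_imageA _).mpr ⟨⟨(F (p : D × D).1, F (p : D × D).2), hp⟩, ?_⟩
  rw [eq_comm, ← sub_eq_zero]
  apply pr_injective
  · rw [map_sub, ← Polynomial.aeval_algHom_apply, pr1_tmul, pr1_tmul, one_mul, one_mul]
    rw [Polynomial.aeval_def, Polynomial.eval₂_eq_eval_map, Algebra.algebraMap_self,
      Polynomial.map_id, hF, sub_self]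
  · rw [map_sub, ← Polynomial.aeval_algHom_apply, pr2_tmul, pr2_tmul, one_mul, one_mul]
    rw [Polynomial.aeval_def, Polynomial.eval₂_eq_eval_map, Algebra.algebraMap_self,
      Polynomial.map_id, hF, sub_self]

theorem integrallyClosed [IsIntegrallyClosed D]
    (hres : ∀ M : Ideal D, M.IsMaximal → I ≤ M → Infinite (D ⧸ M)) :
    IsIntegrallyClosed (IntK D (ord D I)) := by
  have hφi : Function.Injective (algebraMap D (FractionRing D)) := IsFractionRing.injective D _
  have hin : IsIntegrallyClosedIn (IntK D (ord D I)) (FractionRing D)[X] := by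
    rw [isIntegrallyClosedIn_iff]
    refine ⟨Subtype.val_injective, ?_⟩
    intro f hf
    have hval : ∀ a : D, ∃ c : D, f.eval (algebraMap D (FractionRing D) a)
        = algebraMap D (FractionRing D) c := by
      intro a
      -- the evaluation homomorphism
      let e : (FractionRing D)[X] →+* FractionRing D :=
        Polynomial.evalRingHom (algebraMap D (FractionRing D) a)
      let ψ' : IntK D (ord D I) →+* (algebraMap D (FractionRing D)).range :=
        (e.comp (IntK D (ord D I)).subtype).codRestrict _ (fun g => eval_mem D I g.1 g.2 a)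
      let E : D ≃+* (algebraMap D (FractionRing D)).range :=
        RingEquiv.ofBijective (algebraMap D (FractionRing D)).rangeRestrict
          ⟨fun x y hxy => hφi (congrArg Subtype.val hxy),
            (algebraMap D (FractionRing D)).rangeRestrict_surjective⟩
      let ψ : IntK D (ord D I) →+* D := (E.symm : _ →+* D).comp ψ'
      have hψ : ∀ g, algebraMap D (FractionRing D) (ψ g) = e g.1 := by
        intro g
        have h1 : E (ψ g) = ψ' g := E.apply_symm_apply _
        exact congrArg Subtype.val h1
      obtain ⟨p, hp, hp0⟩ := hf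
      have hint : IsIntegral D (e f) := by
        refine ⟨p.map ψ, hp.map ψ, ?_⟩
        rw [Polynomial.eval₂_map]
        have h2 : (algebraMap D (FractionRing D)).comp ψ
            = e.comp (algebraMap (IntK D (ord D I)) (FractionRing D)[X]) := by
          ext g
          exact hψ g
        rw [h2, ← Polynomial.hom_eval₂, hp0, map_zero]
      obtain ⟨c, hc⟩ := (IsIntegrallyClosed.isIntegral_iff (R := D)).mp hint
      exact ⟨c, hc.symm⟩
    choose F hF using hval
    exact ⟨⟨f, mem_IntK_of_eval D I hres f F hF⟩, rfl⟩
  have hfs : FaithfulSMul (IntK D (ord D I)) (FractionRing D)[X] :=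
    (faithfulSMul_iff_algebraMap_injective _ _).mpr Subtype.val_injective
  exact IsIntegrallyClosed.of_isIntegrallyClosed_of_isIntegrallyClosedIn _ (FractionRing D)[X]

end main

/-- Let `D` be an integrally closed domain and let `I` be a nonzero proper finitely generated
ideal such that every maximal ideal containing `I` has infinite residue field.  Then there is a
torsion-free module-finite commutative `D`-algebra `A` containing `D` such that `Int_K(A)` is
integrally closed although some element of `B = K ⊗[D] A` that is integral over `D` is not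
in `A`. -/
theorem result (D : Type u) [CommRing D] [IsDomain D] [IsIntegrallyClosed D] (I : Ideal D)
    (hI0 : I ≠ ⊥) (hI1 : I ≠ ⊤) (hfg : I.FG)
    (hres : ∀ M : Ideal D, M.IsMaximal → I ≤ M → Infinite (D ⧸ M)) :
    ∃ (A : Type u) (_ : CommRing A) (_ : Algebra D A),
      Module.Finite D A ∧ Module.IsTorsionFree D A ∧ Function.Injective (algebraMap D A) ∧
      IsIntegrallyClosed (IntK D A) ∧
      ∃ b : BB D A, IsIntegral D b ∧ b ∉ imageA D A := by
  have htf := torsionFree_ord D I
  refine ⟨ord D I, inferInstance, inferInstance, finite_ord D I hfg, htf, ?_,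
    integrallyClosed D I hres, ?_⟩
  · intro x y hxy
    exact congrArg (fun p : ord D I => (p : D × D).1) hxy
  · obtain ⟨d, hd, hd0⟩ := (Submodule.ne_bot_iff I).mp hI0
    have hφi : Function.Injective (algebraMap D (FractionRing D)) := IsFractionRing.injective D _
    have hφd : algebraMap D (FractionRing D) d ≠ 0 := by
      intro h; apply hd0; apply hφi; rw [h, map_zero]
    let p : ord D I := ⟨(d, 0), by change d - 0 ∈ I; rwa [sub_zero]⟩
    let b : BB D (ord D I) := (algebraMap D (FractionRing D) d)⁻¹ ⊗ₜ[D] p
    have hb1 : pr1 D I b = 1 := by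
      rw [pr1_tmul]
      exact inv_mul_cancel₀ hφd
    have hb2 : pr2 D I b = 0 := by
      rw [pr2_tmul]
      change _ * algebraMap D (FractionRing D) 0 = 0
      rw [map_zero, mul_zero]
    have hbb : b * b = b := by
      rw [← sub_eq_zero]
      apply pr_injective
      · rw [map_sub, map_mul, hb1, mul_one, sub_self]
      · rw [map_sub, map_mul, hb2, mul_zero, sub_self]
    refine ⟨b, ?_, ?_⟩
    · refine ⟨X ^ 2 - X, ?_, ?_⟩
      · apply Polynomial.monic_X_pow_sub
        rw [Polynomial.degree_X]
        norm_num
      · rw [Polynomial.eval₂_sub, Polynomial.eval₂_X_pow, Polynomial.eval₂_X, pow_two, hbb,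
          sub_self]
    · intro hmem
      obtain ⟨q, hq⟩ := (mem_imageA _).mp hmem
      have h1 : (q : D × D).1 = 1 := by
        apply hφi
        have := congrArg (pr1 D I) hq
        rw [pr1_tmul, one_mul, hb1] at this
        rw [this, map_one]
      have h2 : (q : D × D).2 = 0 := by
        apply hφi
        have := congrArg (pr2 D I) hq
        rw [pr2_tmul, one_mul, hb2] at this
        rw [this, map_zero]
      have h3 : (q : D × D).1 - (q : D × D).2 ∈ I := q.2
      rw [h1, h2, sub_zero] at h3
      exact hI1 ((Ideal.eq_top_iff_one I).mpr h3)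

/-- The hypotheses of `result` are satisfied by `D = ℚ[X]` and `I = (X)`; hence the negated form
of the question holds. -/
theorem negatedForm : ∃ (D : Type) (_ : CommRing D) (_ : IsDomain D) (_ : IsIntegrallyClosed D)
    (A : Type) (_ : CommRing A) (_ : Algebra D A),
      Module.Finite D A ∧ Module.IsTorsionFree D A ∧ Function.Injective (algebraMap D A) ∧
      IsIntegrallyClosed (IntK D A) ∧
      ∃ b : BB D A, IsIntegral D b ∧ b ∉ imageA D A := by
  refine ⟨ℚ[X], inferInstance, inferInstance, inferInstance, ?_⟩
  refine result ℚ[X] (Ideal.span {X}) ?_ ?_ ⟨{X}, by simp⟩ ?_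
  · rw [Ne, Ideal.span_singleton_eq_bot]
    exact X_ne_zero
  · rw [Ne, Ideal.span_singleton_eq_top]
    exact not_isUnit_X
  · intro M hM _
    have hc : Function.Injective ((Ideal.Quotient.mk M).comp (C : ℚ →+* ℚ[X])) := by
      have : Nontrivial (ℚ[X] ⧸ M) := Ideal.Quotient.nontrivial_iff.mpr hM.ne_top
      exact RingHom.injective _
    exact Infinite.of_injective _ hc

end Pool.Agent.Results.MP_f9f43c_al.InfiniteResidue
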